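import Pool.Agent.Y825.GC.Petersen

/-! # Faithful circuit covers for weights divisible by an odd number

For every odd `k`, a graph containing a subdivision of the Petersen graph does not have property
`P_k`: some admissible eulerian weight with values in `{0, k, 2 k}` has no faithful circuit cover.
Together with the theorem of Alspach, Goddyn and Zhang this determines the graphs with property
`P_k` for all odd `k`: they are the graphs without a subdivision of the Petersen graph.

Graphs are finite and may have parallel edges: `MGraph V E` has the vertices `V` and the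
edges `E`. -/

set_option autoImplicit false

namespace Pool.Agent.Results.MP_3c540c_co.OddMultiples

open Pool.Agent.Y825.GC (pa pb q1 q2 q3 no_odd)

/-- A graph with vertex set `V` and edge set `E`; parallel edges are allowed, loops are not. -/
structure MGraph (V E : Type) where
  /-- the two ends of an edge -/
  ends : E → Sym2 V
  /-- the two ends are distinct -/
  loopless : ∀ e, ¬ (ends e).IsDiag

section defs

variable {V E : Type} [Fintype V] [Fintype E]

open scoped Classical in
/-- the number of edges of `C` at the vertex `v` -/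
noncomputable def deg (G : MGraph V E) (C : Finset E) (v : V) : ℕ :=
  (C.filter fun e => v ∈ G.ends e).card

/-- `C` is the edge set of a circuit: a connected 2-regular subgraph. -/
def IsCircuit (G : MGraph V E) (C : Finset E) : Prop :=
  C.Nonempty ∧ (∀ v, deg G C v = 0 ∨ deg G C v = 2) ∧
    ∀ e ∈ C, ∀ f ∈ C,
      Relation.ReflTransGen (fun s t => t ∈ C ∧ ∃ v, v ∈ G.ends s ∧ v ∈ G.ends t) e f

open scoped Classical in
/-- the edge-cut: the edges with exactly one end in `X` -/
noncomputable def cut (G : MGraph V E) (X : Finset V) : Finset E :=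
  Finset.univ.filter fun e => (∃ v, v ∈ G.ends e ∧ v ∈ X) ∧ ∃ v, v ∈ G.ends e ∧ v ∉ X

open scoped Classical in
/-- no edge of an edge-cut weighs more than the others of the cut together -/
def Admissible (G : MGraph V E) (w : E → ℕ) : Prop :=
  ∀ X : Finset V, X.Nonempty → X ≠ Finset.univ →
    ∀ e ∈ cut G X, w e ≤ ∑ f ∈ (cut G X).erase e, w f

/-- all edge-cuts have even weight -/
def Eulerian (G : MGraph V E) (w : E → ℕ) : Prop :=
  ∀ X : Finset V, X.Nonempty → X ≠ Finset.univ → Even (∑ e ∈ cut G X, w e)

open scoped Classical in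
/-- a finite family of circuits such that every edge `e` is in exactly `w e` of them -/
def FaithfulCover (G : MGraph V E) (w : E → ℕ) : Prop :=
  ∃ (n : ℕ) (C : Fin n → Finset E), (∀ t, IsCircuit G (C t)) ∧
    ∀ e, (Finset.univ.filter fun t => e ∈ C t).card = w e

/-- property `P_k` -/
def HasP (G : MGraph V E) (k : ℕ) : Prop :=
  ∀ w : E → ℕ, (∀ e, k ∣ w e) → Admissible G w → Eulerian G w → FaithfulCover G w

/-- `G` contains a subdivision of the graph `P`: the vertices of `P` are represented by distinct
vertices of `G` (the map `b`), and every edge `i` of `P` by a path of `G` with `len i ≥ 1` edges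
`a i 0, ..., a i (len i - 1)` and vertices `x i 0, ..., x i (len i)` joining the representatives of
its ends, the interior vertices of these paths being distinct from each other and from the
representatives of the vertices of `P`. -/
def ContainsSubdivision {W F : Type} (P : MGraph W F) (G : MGraph V E) : Prop :=
  ∃ (b : W → V) (len : F → ℕ) (x : F → ℕ → V) (a : F → ℕ → E),
    Function.Injective b ∧
    (∀ i, 1 ≤ len i) ∧
    (∀ i, ∃ p q, P.ends i = s(p, q) ∧ x i 0 = b p ∧ x i (len i) = b q) ∧
    (∀ i j, j < len i → G.ends (a i j) = s(x i j, x i (j + 1))) ∧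
    (∀ i j, 0 < j → j < len i → ∀ v, x i j ≠ b v) ∧
    (∀ i j i' j', 0 < j → j < len i → 0 < j' → j' < len i' → x i j = x i' j' →
      i = i' ∧ j = j')

end defs

/-- The Petersen graph: vertices `0, ..., 9` and the 15 edges `01, 02, 03, 14, 15, 26, 27, 38, 39,
46, 48, 57, 59, 69, 78`. -/
def petersen : MGraph (Fin 10) (Fin 15) where
  ends i := s((![0, 0, 0, 1, 1, 2, 2, 3, 3, 4, 4, 5, 5, 6, 7] : Fin 15 → Fin 10) i,
    (![1, 2, 3, 4, 5, 6, 7, 8, 9, 6, 8, 7, 9, 9, 8] : Fin 15 → Fin 10) i)
  loopless := by decide

/-- The usual description of the Petersen graph: the vertices are the 2-subsets of a 5-set and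
disjoint 2-subsets are joined by an edge. -/
theorem petersen_kneser : ∃ φ : Fin 10 → Finset (Fin 5), Function.Injective φ ∧
    (∀ v, (φ v).card = 2) ∧
    (∀ u v, Disjoint (φ u) (φ v) ↔ ∃ i, petersen.ends i = s(u, v)) ∧
    Function.Injective petersen.ends := by
  refine ⟨![{0, 1}, {2, 3}, {2, 4}, {3, 4}, {0, 4}, {1, 4}, {1, 3}, {0, 3}, {1, 2}, {0, 2}],
    ?_, ?_, ?_, ?_⟩
  · decide
  · decide
  · decide
  · decide

/-- the weights -/
def pw (i : Fin 15) : ℕ := (![1, 2, 1, 1, 2, 1, 1, 1, 2, 2, 1, 1, 1, 1, 2] : Fin 15 → ℕ) i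

lemma pw_pos : ∀ i, 1 ≤ pw i := by decide

lemma pw_le : ∀ i, pw i ≤ 2 := by decide

lemma ends_eq (i : Fin 15) : petersen.ends i = s(pa i, pb i) := rfl

lemma pa_ne_pb : ∀ i, pa i ≠ pb i := by decide

/-- weight of the cut of the Petersen graph given by `f` -/
def pc (f : Fin 10 → Bool) : ℕ := ∑ i, pw i * (if f (pa i) = f (pb i) then 0 else 1)

lemma pc_even : ∀ f : Fin 10 → Bool, pc f % 2 = 0 := by decide +kernel

lemma pc_ge : ∀ f : Fin 10 → Bool, 4 ≤ pc f ∨ ∀ i, f (pa i) = f (pb i) := by decide +kernel

lemma inc_set : ∀ v : Fin 10, (Finset.univ.filter fun i => v = pa i ∨ v = pb i) =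
    {q1 v, q2 v, q3 v} := by decide +kernel

lemma q_ne : ∀ v : Fin 10, q1 v ≠ q2 v ∧ q1 v ≠ q3 v ∧ q2 v ≠ q3 v := by decide +kernel

lemma sum_inc (β : Fin 15 → ℕ) (v : Fin 10) :
    ∑ i, (if v = pa i ∨ v = pb i then β i else 0) = β (q1 v) + β (q2 v) + β (q3 v) := by
  obtain ⟨h1, h2, h3⟩ := q_ne v
  rw [← Finset.sum_filter, inc_set, Finset.sum_insert, Finset.sum_insert, Finset.sum_singleton]
  · ring
  · simpa using h3
  · simpa using ⟨h1, h2⟩

lemma tab : ∀ i i' : Fin 15, (pa i = pa i' ∧ pb i = pb i') ∨ (pa i = pb i' ∧ pb i = pa i') →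
    i = i' := by decide +kernel

/-- parity of the number of changes of a sequence -/
lemma changes (g : ℕ → Bool) (n : ℕ) :
    (∑ j ∈ Finset.range n, if g j = g (j + 1) then 0 else 1) % 2 = if g 0 = g n then 0 else 1 := by
  induction n with
  | zero => simp
  | succ n ih =>
    rw [Finset.sum_range_succ, Nat.add_mod, ih]
    rcases hg0 : g 0 <;> rcases hgn : g n <;> rcases hgm : g (n + 1) <;> simp

open scoped Classical in
/-- the weight without faithful circuit cover -/
theorem weight (V E : Type) [Fintype V] [Fintype E] (G : MGraph V E)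
    (hG : ContainsSubdivision petersen G) (k : ℕ) (hk : Odd k) :
    ∃ w : E → ℕ, (∀ e, w e = 0 ∨ w e = k ∨ w e = 2 * k) ∧ Admissible G w ∧ Eulerian G w ∧
      ¬ FaithfulCover G w := by
  obtain ⟨b, len, x, a, hb, hlen, hpq, hends, hint, hinj⟩ := hG
  have hkpos : 0 < k := hk.pos
  -- the ends of the paths
  have hpq' : ∀ i, ∃ p q, ((p = pa i ∧ q = pb i) ∨ (p = pb i ∧ q = pa i)) ∧ x i 0 = b p ∧
      x i (len i) = b q := by
    intro i
    obtain ⟨p, q, h1, h2, h3⟩ := hpq i
    rw [ends_eq, eq_comm, Sym2.eq_iff] at h1
    exact ⟨p, q, h1, h2, h3⟩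
  choose p q hp hx0 hxl using hpq'
  have hpneq : ∀ i, p i ≠ q i := by
    intro i
    rcases hp i with ⟨h1, h2⟩ | ⟨h1, h2⟩
    · rw [h1, h2]; exact pa_ne_pb i
    · rw [h1, h2]; exact (pa_ne_pb i).symm
  -- equal vertices of two paths
  have xeq : ∀ i m i' m', m ≤ len i → m' ≤ len i' → x i m = x i' m' →
      (0 < m ∧ m < len i ∧ i = i' ∧ m = m') ∨
      ((m = 0 ∨ m = len i) ∧ (m' = 0 ∨ m' = len i') ∧
        (if m = 0 then p i else q i) = (if m' = 0 then p i' else q i')) := by
    intro i m i' m' hm hm' he
    have hl := hlen i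
    have hl' := hlen i'
    have bd : ∀ i m, m ≤ len i → 1 ≤ len i → (0 < m ∧ m < len i) ∨
        ((m = 0 ∨ m = len i) ∧ x i m = b (if m = 0 then p i else q i)) := by
      intro i m hm hl
      rcases Nat.eq_zero_or_pos m with h | h
      · right
        subst h
        exact ⟨Or.inl rfl, by rw [if_pos rfl]; exact hx0 i⟩
      · rcases Nat.lt_or_ge m (len i) with h2 | h2
        · exact Or.inl ⟨h, h2⟩
        · right
          have h3 : m = len i := le_antisymm hm h2
          refine ⟨Or.inr h3, ?_⟩
          rw [if_neg (by omega), h3]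
          exact hxl i
    rcases bd i m hm hl with ⟨h1, h2⟩ | ⟨h1, h2⟩
    · rcases bd i' m' hm' hl' with ⟨h3, h4⟩ | ⟨h3, h4⟩
      · obtain ⟨h5, h6⟩ := hinj _ _ _ _ h1 h2 h3 h4 he
        exact Or.inl ⟨h1, h2, h5, h6⟩
      · exact absurd (he.trans h4) (hint i m h1 h2 _)
    · rcases bd i' m' hm' hl' with ⟨h3, h4⟩ | ⟨h3, h4⟩
      · exact absurd (he.symm.trans h2) (hint i' m' h3 h4 _)
      · refine Or.inr ⟨h1, h3, hb ?_⟩
        rw [← h2, ← h4, he]
  -- distinct edges
  have hainj : ∀ i j i' j', j < len i → j' < len i' → a i j = a i' j' → i = i' ∧ j = j' := by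
    intro i j i' j' hj hj' he
    have h1 := hends i j hj
    have h2 := hends i' j' hj'
    rw [he, h2, Sym2.eq_iff] at h1
    rcases h1 with ⟨e1, e2⟩ | ⟨e1, e2⟩
    · rcases xeq _ _ _ _ (by omega) (by omega) e1 with ⟨_, _, h5, h6⟩ | ⟨h3, h4, h5⟩
      · exact ⟨h5.symm, h6.symm⟩
      · have hj0 : j = 0 := by omega
        have hj0' : j' = 0 := by omega
        rw [if_pos hj0, if_pos hj0'] at h5
        rcases xeq _ _ _ _ (by omega) (by omega) e2 with ⟨_, _, h6, h7⟩ | ⟨_, _, h8⟩
        · exact ⟨h6.symm, by omega⟩
        · rw [if_neg (by omega), if_neg (by omega)] at h8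
          refine ⟨tab i i' ?_, by omega⟩
          rcases hp i with ⟨g1, g2⟩ | ⟨g1, g2⟩ <;> rcases hp i' with ⟨g3, g4⟩ | ⟨g3, g4⟩
          · left; exact ⟨by rw [← g1, ← g3, h5], by rw [← g2, ← g4, h8]⟩
          · right; exact ⟨by rw [← g1, ← g3, h5], by rw [← g2, ← g4, h8]⟩
          · right; exact ⟨by rw [← g2, ← g4, h8], by rw [← g1, ← g3, h5]⟩
          · left; exact ⟨by rw [← g2, ← g4, h8], by rw [← g1, ← g3, h5]⟩
    · exfalso
      rcases xeq _ _ _ _ (by omega) (by omega) e1 with ⟨g1, g2, g3, g4⟩ | ⟨g1, g2, g3⟩
      · rcases xeq _ _ _ _ (by omega) (by omega) e2 with ⟨k1, k2, k3, k4⟩ | ⟨k1, k2, k3⟩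
        · omega
        · have hj0 : j = 0 := by omega
          rw [if_neg (by omega), if_pos hj0, g3] at k3
          exact hpneq i k3.symm
      · have hj0' : j' = 0 := by omega
        rw [if_pos hj0', if_neg (by omega)] at g3
        rcases xeq _ _ _ _ (by omega) (by omega) e2 with ⟨k1, k2, k3, k4⟩ | ⟨k1, k2, k3⟩
        · rw [k3] at g3
          exact hpneq i g3
        · have hj0 : j = 0 := by omega
          rw [if_neg (by omega), if_pos hj0] at k3
          have hii : i = i' := by
            apply tab i i'
            rcases hp i with ⟨m1, m2⟩ | ⟨m1, m2⟩ <;> rcases hp i' with ⟨m3, m4⟩ | ⟨m3, m4⟩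
            · right; exact ⟨by rw [← m1, ← m4, k3], by rw [← m2, ← m3, g3]⟩
            · left; exact ⟨by rw [← m1, ← m4, k3], by rw [← m2, ← m3, g3]⟩
            · left; exact ⟨by rw [← m2, ← m3, g3], by rw [← m1, ← m4, k3]⟩
            · right; exact ⟨by rw [← m2, ← m3, g3], by rw [← m1, ← m4, k3]⟩
          rw [← hii] at g3
          exact hpneq i g3
  -- the weight
  set w : E → ℕ := fun e => ∑ i, ∑ j ∈ Finset.range (len i), if a i j = e then k * pw i else 0
    with hw
  have hwa : ∀ i j, j < len i → w (a i j) = k * pw i := by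
    intro i j hj
    rw [hw]
    simp only
    rw [Finset.sum_eq_single i, Finset.sum_eq_single j, if_pos rfl]
    · intro j' hj' hne
      rw [if_neg]
      intro h
      exact hne (hainj _ _ _ _ (Finset.mem_range.1 hj') hj h).2
    · intro h
      exact absurd (Finset.mem_range.2 hj) h
    · intro i' _ hne
      apply Finset.sum_eq_zero
      intro j' hj'
      rw [if_neg]
      intro h
      exact hne (hainj _ _ _ _ (Finset.mem_range.1 hj') hj h).1
    · intro h
      exact absurd (Finset.mem_univ _) h
  have hwne : ∀ e, w e ≠ 0 → ∃ i j, j < len i ∧ a i j = e := by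
    intro e he
    by_contra hcon
    push Not at hcon
    apply he
    rw [hw]
    simp only
    apply Finset.sum_eq_zero
    intro i _
    apply Finset.sum_eq_zero
    intro j hj
    rw [if_neg (hcon i j (Finset.mem_range.1 hj))]
  have hwval : ∀ e, w e = 0 ∨ w e = k ∨ w e = 2 * k := by
    intro e
    by_cases he : w e = 0
    · exact Or.inl he
    · obtain ⟨i, j, hj, rfl⟩ := hwne e he
      right
      rw [hwa i j hj]
      have h1 := pw_pos i
      have h2 := pw_le i
      rcases Nat.lt_or_ge (pw i) 2 with h | h
      · left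
        rw [show pw i = 1 by omega, mul_one]
      · right
        rw [show pw i = 2 by omega, mul_comm]
  -- the weight of a set of edges
  have hwsum : ∀ T : Finset E, ∑ e ∈ T, w e =
      ∑ i, k * pw i * ∑ j ∈ Finset.range (len i), if a i j ∈ T then 1 else 0 := by
    intro T
    rw [hw]
    simp only
    rw [Finset.sum_comm]
    refine Finset.sum_congr rfl fun i _ => ?_
    rw [Finset.sum_comm, Finset.mul_sum]
    refine Finset.sum_congr rfl fun j _ => ?_
    by_cases h : a i j ∈ T
    · rw [if_pos h, Finset.sum_ite_eq, if_pos h, mul_one]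
    · rw [if_neg h, Finset.sum_ite_eq, if_neg h, mul_zero]
  -- crossings
  have hcross : ∀ (X : Finset V) i j, j < len i →
      (a i j ∈ cut G X ↔ ¬ (decide (x i j ∈ X) = decide (x i (j + 1) ∈ X))) := by
    intro X i j hj
    unfold cut
    rw [Finset.mem_filter, hends i j hj]
    simp only [Finset.mem_univ, true_and, Sym2.mem_iff]
    by_cases h1 : x i j ∈ X <;> by_cases h2 : x i (j + 1) ∈ X
    · simp only [h1, h2, not_true_eq_false, iff_false, not_and]
      rintro _ ⟨v, rfl | rfl, hv⟩
      · exact hv h1
      · exact hv h2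
    · simp only [h1, h2, decide_true, decide_false, Bool.true_eq_false, not_false_eq_true, iff_true]
      exact ⟨⟨_, Or.inl rfl, h1⟩, ⟨_, Or.inr rfl, h2⟩⟩
    · simp only [h1, h2, decide_true, decide_false, Bool.false_eq_true, not_false_eq_true, iff_true]
      exact ⟨⟨_, Or.inr rfl, h2⟩, ⟨_, Or.inl rfl, h1⟩⟩
    · simp only [h1, h2, not_true_eq_false, iff_false, not_and]
      rintro ⟨v, rfl | rfl, hv⟩
      · exact absurd hv h1
      · exact absurd hv h2
  have hcnt : ∀ (X : Finset V) i,
      (∑ j ∈ Finset.range (len i), if a i j ∈ cut G X then 1 else 0) % 2 =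
        if decide (b (pa i) ∈ X) = decide (b (pb i) ∈ X) then 0 else 1 := by
    intro X i
    have h1 : (∑ j ∈ Finset.range (len i), if a i j ∈ cut G X then 1 else 0) =
        ∑ j ∈ Finset.range (len i),
          if decide (x i j ∈ X) = decide (x i (j + 1) ∈ X) then 0 else 1 := by
      refine Finset.sum_congr rfl fun j hj => ?_
      have h2 := hcross X i j (Finset.mem_range.1 hj)
      by_cases h3 : decide (x i j ∈ X) = decide (x i (j + 1) ∈ X)
      · rw [if_pos h3, if_neg (fun h => (h2.1 h) h3)]
      · rw [if_neg h3, if_pos (h2.2 h3)]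
    rw [h1, changes (fun j => decide (x i j ∈ X)) (len i)]
    simp only [hx0, hxl]
    rcases hp i with ⟨g1, g2⟩ | ⟨g1, g2⟩
    · rw [g1, g2]
    · rw [g1, g2]
      by_cases h : decide (b (pa i) ∈ X) = decide (b (pb i) ∈ X)
      · rw [if_pos h, if_pos h.symm]
      · rw [if_neg h, if_neg (fun h' => h h'.symm)]
  refine ⟨w, hwval, ?_, ?_, ?_⟩
  · -- admissible
    intro X _ _ e he
    by_cases hwe : w e = 0
    · rw [hwe]; exact Nat.zero_le _
    obtain ⟨i, j, hj, rfl⟩ := hwne e hwe
    have h1 : w (a i j) + ∑ f ∈ (cut G X).erase (a i j), w f = ∑ f ∈ cut G X, w f :=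
      Finset.add_sum_erase _ _ he
    suffices h2 : 2 * w (a i j) ≤ ∑ f ∈ cut G X, w f by omega
    rw [hwsum, hwa i j hj]
    set c : Fin 15 → ℕ := fun i => ∑ j ∈ Finset.range (len i), if a i j ∈ cut G X then 1 else 0
      with hc
    have hci : 1 ≤ c i := by
      rw [hc]
      simp only
      calc 1 = if a i j ∈ cut G X then 1 else 0 := by rw [if_pos he]
        _ ≤ _ := Finset.single_le_sum (f := fun j => if a i j ∈ cut G X then 1 else 0)
          (fun _ _ => Nat.zero_le _) (Finset.mem_range.2 hj)
    have hcm : ∀ i, c i % 2 = if decide (b (pa i) ∈ X) = decide (b (pb i) ∈ X) then 0 else 1 :=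
      fun i => hcnt X i
    rcases Nat.lt_or_ge (c i) 2 with h | h
    · have h3 : c i = 1 := by omega
      have h4 := hcm i
      have h5 : ¬ (decide (b (pa i) ∈ X) = decide (b (pb i) ∈ X)) := by
        intro h6
        rw [if_pos h6, h3] at h4
        exact absurd h4 (by norm_num)
      rcases pc_ge (fun v => decide (b v ∈ X)) with h6 | h6
      · have h7 : pc (fun v => decide (b v ∈ X)) ≤ ∑ i, pw i * c i := by
          unfold pc
          refine Finset.sum_le_sum fun i _ => Nat.mul_le_mul_left _ ?_
          have h8 := hcm i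
          simp only
          split_ifs at h8 ⊢ <;> omega
        have h8 : ∑ i, k * pw i * c i = k * ∑ i, pw i * c i := by
          rw [Finset.mul_sum]
          exact Finset.sum_congr rfl fun i _ => by ring
        have h9 := pw_le i
        calc 2 * (k * pw i) = k * (2 * pw i) := by ring
          _ ≤ k * ∑ i, pw i * c i := Nat.mul_le_mul_left _ (by omega)
          _ = _ := h8.symm
      · exact absurd (h6 i) h5
    · calc 2 * (k * pw i) = k * pw i * 2 := by ring
        _ ≤ k * pw i * c i := Nat.mul_le_mul_left _ h
        _ ≤ _ := Finset.single_le_sum (f := fun i => k * pw i * c i)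
          (fun _ _ => Nat.zero_le _) (Finset.mem_univ i)
  · -- eulerian
    intro X _ _
    rw [hwsum, Nat.even_iff]
    have h1 : (∑ i, k * pw i * ∑ j ∈ Finset.range (len i), if a i j ∈ cut G X then 1 else 0) =
        k * ∑ i, pw i * ∑ j ∈ Finset.range (len i), if a i j ∈ cut G X then 1 else 0 := by
      rw [Finset.mul_sum]
      exact Finset.sum_congr rfl fun i _ => by ring
    have h2 : (∑ i, pw i * ∑ j ∈ Finset.range (len i), if a i j ∈ cut G X then 1 else 0) % 2 =
        pc (fun v => decide (b v ∈ X)) % 2 := by
      unfold pc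
      rw [Finset.sum_nat_mod, Finset.sum_nat_mod (f := fun i => pw i *
        (if decide (b (pa i) ∈ X) = decide (b (pb i) ∈ X) then 0 else 1))]
      congr 1
      refine Finset.sum_congr rfl fun i _ => ?_
      rw [Nat.mul_mod, hcnt X i, Nat.mul_mod (pw i)]
      congr 2
      split_ifs <;> rfl
    rw [h1, Nat.mul_mod, h2, pc_even, mul_zero, Nat.zero_mod]
  · -- no cover
    rintro ⟨n, C, hC, hcov⟩
    -- only edges of the paths
    have hin : ∀ t, ∀ e ∈ C t, ∃ i j, j < len i ∧ a i j = e := by
      intro t e he
      apply hwne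
      rw [← hcov e]
      apply Finset.card_ne_zero_of_mem (a := t)
      rw [Finset.mem_filter]
      exact ⟨Finset.mem_univ _, he⟩
    -- next edge
    have hnext : ∀ t i j, j + 1 < len i → (a i j ∈ C t ↔ a i (j + 1) ∈ C t) := by
      intro t i j hj
      have hsub : ((C t).filter fun e => x i (j + 1) ∈ G.ends e) ⊆ {a i j, a i (j + 1)} := by
        intro e he
        rw [Finset.mem_filter] at he
        obtain ⟨he1, he2⟩ := he
        obtain ⟨i', j', hj', rfl⟩ := hin t e he1
        rw [hends i' j' hj', Sym2.mem_iff] at he2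
        rw [Finset.mem_insert, Finset.mem_singleton]
        rcases he2 with he2 | he2
        · rcases xeq _ _ _ _ (by omega) (by omega) he2 with ⟨_, _, h5, h6⟩ | ⟨h3, _, _⟩
          · right; rw [h5, h6]
          · exfalso; omega
        · rcases xeq _ _ _ _ (by omega) (by omega) he2 with ⟨_, _, h5, h6⟩ | ⟨h3, _, _⟩
          · left
            have h7 : j = j' := by omega
            rw [h5, h7]
          · exfalso; omega
      have hne : a i j ≠ a i (j + 1) := by
        intro h
        have := (hainj _ _ _ _ (by omega) (by omega) h).2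
        omega
      have hmem1 : x i (j + 1) ∈ G.ends (a i j) := by
        rw [hends i j (by omega)]
        exact Sym2.mem_mk_right _ _
      have hmem2 : x i (j + 1) ∈ G.ends (a i (j + 1)) := by
        rw [hends i (j + 1) (by omega)]
        exact Sym2.mem_mk_left _ _
      have hdeg := (hC t).2.1 (x i (j + 1))
      unfold deg at hdeg
      have hall : ∀ e, e ∈ C t → x i (j + 1) ∈ G.ends e → a i j ∈ C t ∧ a i (j + 1) ∈ C t := by
        intro e he1 he2
        have h0 : ((C t).filter fun e => x i (j + 1) ∈ G.ends e).card ≠ 0 := by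
          apply Finset.card_ne_zero_of_mem (a := e)
          rw [Finset.mem_filter]
          exact ⟨he1, he2⟩
        have h2 : ((C t).filter fun e => x i (j + 1) ∈ G.ends e).card = 2 := by
          rcases hdeg with h | h
          · exact absurd h h0
          · exact h
        have h3 : ((C t).filter fun e => x i (j + 1) ∈ G.ends e) = {a i j, a i (j + 1)} := by
          apply Finset.eq_of_subset_of_card_le hsub
          rw [h2]
          exact Finset.card_le_two
        constructor
        · have : a i j ∈ ((C t).filter fun e => x i (j + 1) ∈ G.ends e) := by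
            rw [h3]; simp
          exact (Finset.mem_filter.1 this).1
        · have : a i (j + 1) ∈ ((C t).filter fun e => x i (j + 1) ∈ G.ends e) := by
            rw [h3]; simp
          exact (Finset.mem_filter.1 this).1
      exact ⟨fun h => (hall _ h hmem1).2, fun h => (hall _ h hmem2).1⟩
    have hpath : ∀ t i j, j < len i → (a i j ∈ C t ↔ a i 0 ∈ C t) := by
      intro t i j
      induction j with
      | zero => intro _; exact Iff.rfl
      | succ j ih =>
        intro hj
        rw [← hnext t i j hj]
        exact ih (by omega)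
    -- sums over a circuit
    have hCsum : ∀ t (g : E → ℕ), ∑ e ∈ C t, g e =
        ∑ i, ∑ j ∈ Finset.range (len i), if a i j ∈ C t then g (a i j) else 0 := by
      intro t g
      have h1 : C t = (Finset.univ : Finset (Fin 15)).biUnion (fun i =>
          (((Finset.range (len i)).filter fun j => a i j ∈ C t).image (a i))) := by
        ext e
        simp only [Finset.mem_biUnion, Finset.mem_univ, true_and, Finset.mem_image,
          Finset.mem_filter, Finset.mem_range]
        constructor
        · intro he
          obtain ⟨i, j, hj, rfl⟩ := hin t e he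
          exact ⟨i, j, ⟨hj, he⟩, rfl⟩
        · rintro ⟨i, j, ⟨_, h⟩, rfl⟩
          exact h
      conv_lhs => rw [h1]
      rw [Finset.sum_biUnion]
      · refine Finset.sum_congr rfl fun i _ => ?_
        rw [Finset.sum_image, Finset.sum_filter]
        intro j hj j' hj' he
        rw [Finset.mem_coe, Finset.mem_filter, Finset.mem_range] at hj hj'
        exact (hainj _ _ _ _ hj.1 hj'.1 he).2
      · intro i _ i' _ hne
        rw [Function.onFun, Finset.disjoint_left]
        intro e he he'
        rw [Finset.mem_image] at he he'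
        obtain ⟨j, hj, rfl⟩ := he
        obtain ⟨j', hj', h⟩ := he'
        rw [Finset.mem_filter, Finset.mem_range] at hj hj'
        exact hne (hainj _ _ _ _ hj'.1 hj.1 h).1.symm
    -- the branch vertices
    have hbr : ∀ t v, deg G (C t) (b v) =
        ∑ i, if v = pa i ∨ v = pb i then (if a i 0 ∈ C t then 1 else 0) else 0 := by
      intro t v
      unfold deg
      rw [Finset.card_filter, hCsum t (fun e => if b v ∈ G.ends e then 1 else 0)]
      refine Finset.sum_congr rfl fun i _ => ?_
      have h1 : ∀ j ∈ Finset.range (len i), (if a i j ∈ C t then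
          (if b v ∈ G.ends (a i j) then 1 else 0) else 0) =
          (if a i 0 ∈ C t then ((if j = 0 then (if v = p i then 1 else 0) else 0) +
            (if j = len i - 1 then (if v = q i then 1 else 0) else 0)) else 0) := by
        intro j hj
        rw [Finset.mem_range] at hj
        by_cases h0 : a i 0 ∈ C t
        · rw [if_pos h0, if_pos ((hpath t i j hj).2 h0)]
          have h2 : (b v = x i j) ↔ (j = 0 ∧ v = p i) := by
            constructor
            · intro h
              rcases Nat.eq_zero_or_pos j with hj0 | hj0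
              · refine ⟨hj0, ?_⟩
                rw [hj0, hx0] at h
                exact hb h
              · exact absurd h.symm (hint i j hj0 hj v)
            · rintro ⟨h, h'⟩
              rw [h, h', hx0]
          have h3 : (b v = x i (j + 1)) ↔ (j = len i - 1 ∧ v = q i) := by
            constructor
            · intro h
              rcases Nat.lt_or_ge (j + 1) (len i) with hj1 | hj1
              · exact absurd h.symm (hint i (j + 1) (by omega) hj1 v)
              · have h4 : j + 1 = len i := by omega
                refine ⟨by omega, ?_⟩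
                rw [h4, hxl] at h
                exact hb h
            · rintro ⟨h, h'⟩
              rw [show j + 1 = len i by omega, h', hxl]
          have h5 := hpneq i
          have h6 : (b v ∈ G.ends (a i j)) ↔ ((j = 0 ∧ v = p i) ∨ (j = len i - 1 ∧ v = q i)) := by
            rw [hends i j hj, Sym2.mem_iff, h2, h3]
          by_cases k0 : b v ∈ G.ends (a i j)
          · rw [if_pos k0]
            rcases h6.1 k0 with ⟨k1, k2⟩ | ⟨k1, k2⟩
            · have k3 : v ≠ q i := fun h => h5 (k2.symm.trans h)
              rw [if_pos k1, if_pos k2, if_neg k3]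
              split_ifs <;> rfl
            · have k3 : v ≠ p i := fun h => h5 (h.symm.trans k2)
              rw [if_pos k1, if_pos k2, if_neg k3]
              split_ifs <;> rfl
          · rw [if_neg k0]
            have k1 : (if j = 0 then (if v = p i then 1 else 0) else 0) = 0 := by
              by_cases m1 : j = 0
              · rw [if_pos m1, if_neg (fun h => k0 (h6.2 (Or.inl ⟨m1, h⟩)))]
              · rw [if_neg m1]
            have k2 : (if j = len i - 1 then (if v = q i then 1 else 0) else 0) = 0 := by
              by_cases m1 : j = len i - 1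
              · rw [if_pos m1, if_neg (fun h => k0 (h6.2 (Or.inr ⟨m1, h⟩)))]
              · rw [if_neg m1]
            rw [k1, k2]
        · rw [if_neg h0, if_neg (fun h => h0 ((hpath t i j hj).1 h))]
      rw [Finset.sum_congr rfl h1]
      by_cases h0 : a i 0 ∈ C t
      · simp only [if_pos h0]
        rw [Finset.sum_add_distrib, Finset.sum_ite_eq', Finset.sum_ite_eq',
          if_pos (Finset.mem_range.2 (hlen i)), if_pos (Finset.mem_range.2 (by have := hlen i; omega))]
        have h5 := pa_ne_pb i
        rcases hp i with ⟨g1, g2⟩ | ⟨g1, g2⟩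
        · rw [g1, g2]
          by_cases k3 : v = pa i
          · have k4 : v ≠ pb i := fun h => h5 (k3.symm.trans h)
            rw [if_pos k3, if_neg k4, if_pos (Or.inl k3)]
          · by_cases k4 : v = pb i
            · rw [if_neg k3, if_pos k4, if_pos (Or.inr k4)]
            · rw [if_neg k3, if_neg k4, if_neg (by rintro (h | h); exacts [k3 h, k4 h])]
        · rw [g1, g2]
          by_cases k3 : v = pa i
          · have k4 : v ≠ pb i := fun h => h5 (k3.symm.trans h)
            rw [if_pos k3, if_neg k4, if_pos (Or.inl k3)]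
          · by_cases k4 : v = pb i
            · rw [if_neg k3, if_pos k4, if_pos (Or.inr k4)]
            · rw [if_neg k3, if_neg k4, if_neg (by rintro (h | h); exacts [k3 h, k4 h])]
      · simp only [if_neg h0]
        rw [Finset.sum_const_zero]
        split_ifs <;> rfl
    have hsum : ∀ i, ∑ t, (if a i 0 ∈ C t then 1 else 0) = k * pw i := by
      intro i
      rw [← hwa i 0 (hlen i), ← hcov, Finset.card_filter]
    have hpw : ∀ i, pw i = (![1, 2, 1, 1, 2, 1, 1, 1, 2, 2, 1, 1, 1, 1, 2] : Fin 15 → ℕ) i :=
      fun _ => rfl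
    refine no_odd (fun t i => if a i 0 ∈ C t then 1 else 0) (fun t i => ?_) (fun t v => ?_) k hk
      ?_ ?_ ?_ ?_ ?_ ?_ ?_ ?_ ?_ ?_ ?_ ?_ ?_ ?_ ?_
    · show (if a i 0 ∈ C t then 1 else 0) ≤ 1
      split_ifs <;> norm_num
    · have h1 := (hC t).2.1 (b v)
      rw [hbr, sum_inc (fun i => if a i 0 ∈ C t then 1 else 0) v] at h1
      rcases h1 with h1 | h1
      · show Even (_ + _ + _)
        rw [h1]
        exact ⟨0, rfl⟩
      · show Even (_ + _ + _)
        rw [h1]
        exact ⟨1, rfl⟩
    · exact (hsum 0).trans (by rw [hpw]; simp)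
    · exact (hsum 1).trans (by rw [hpw]; simp [mul_comm])
    · exact (hsum 2).trans (by rw [hpw]; simp)
    · exact (hsum 3).trans (by rw [hpw]; simp)
    · exact (hsum 4).trans (by rw [hpw]; simp [mul_comm])
    · exact (hsum 5).trans (by rw [hpw]; simp)
    · exact (hsum 6).trans (by rw [hpw]; simp)
    · exact (hsum 7).trans (by rw [hpw]; simp)
    · exact (hsum 8).trans (by rw [hpw]; simp [mul_comm])
    · exact (hsum 9).trans (by rw [hpw]; simp [mul_comm])
    · exact (hsum 10).trans (by rw [hpw]; simp)
    · exact (hsum 11).trans (by rw [hpw]; simp)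
    · exact (hsum 12).trans (by rw [hpw]; simp)
    · exact (hsum 13).trans (by rw [hpw]; simp)
    · exact (hsum 14).trans (by rw [hpw]; simp [mul_comm])

/-- Let `k` be odd and `G` a graph.
1. If `G` contains a subdivision of the Petersen graph, some admissible eulerian weight with
values in `{0, k, 2 k}` has no faithful circuit cover.
2. If `G` has property `P_k`, it contains no subdivision of the Petersen graph.
3. If the theorem of Alspach, Goddyn and Zhang holds for `G` (without a subdivision of the Petersen
graph it has property `P_1`), then `G` has property `P_k` if and only if it contains no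
subdivision of the Petersen graph, and if and only if it has property `P_1`. -/
theorem result (V E : Type) [Fintype V] [Fintype E] (G : MGraph V E) (k : ℕ) (hk : Odd k) :
    (ContainsSubdivision petersen G →
      ∃ w : E → ℕ, (∀ e, w e = 0 ∨ w e = k ∨ w e = 2 * k) ∧ Admissible G w ∧ Eulerian G w ∧
        ¬ FaithfulCover G w) ∧
    (HasP G k → ¬ ContainsSubdivision petersen G) ∧
    ((¬ ContainsSubdivision petersen G → HasP G 1) →
      (HasP G k ↔ ¬ ContainsSubdivision petersen G) ∧ (HasP G k ↔ HasP G 1)) := by
  have h1 : HasP G k → ¬ ContainsSubdivision petersen G := by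
    intro hP hG
    obtain ⟨w, h1, h2, h3, h4⟩ := weight V E G hG k hk
    refine h4 (hP w (fun e => ?_) h2 h3)
    rcases h1 e with h | h | h
    · rw [h]; exact dvd_zero _
    · rw [h]
    · rw [h]; exact Dvd.intro_left 2 rfl
  have h2 : HasP G 1 → HasP G k := fun h w _ h3 h4 => h w (fun e => one_dvd _) h3 h4
  exact ⟨fun hG => weight V E G hG k hk, h1, fun h => ⟨⟨h1, fun h' => h2 (h h')⟩,
    ⟨fun h' => h (h1 h'), h2⟩⟩⟩

end Pool.Agent.Results.MP_3c540c_co.OddMultiples
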